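import Pool.Agent.Y655.FC.Ratio

/-!
# Feynman checkers: the invariant
-/

set_option autoImplicit false

namespace Pool.Agent.Y655.FC

/-- the first component along the points of the light cone, with its sign -/
noncomputable def al (n d : ℕ) : ℝ := (-1) ^ (d + 1) * (A n ((n : ℤ) + 1 - 2 * d) : ℝ)

/-- the second component along the points of the light cone, with its sign -/
noncomputable def be (n d : ℕ) : ℝ := (-1) ^ d * (B n ((n : ℤ) + 1 - 2 * d) : ℝ)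

lemma rel1 (n d : ℕ) : ((n : ℝ) - d) * al n (d + 1) =
    -((n : ℝ) - d) * al n d + ((n : ℝ) - 2 * d) * be n d := by
  have h := E1 n ((n : ℤ) + 1 - 2 * d)
  have e : (n : ℤ) + 1 - 2 * d - 2 = (n : ℤ) + 1 - 2 * ((d + 1 : ℕ) : ℤ) := by push_cast; ring
  rw [e] at h
  have h' : (((n : ℤ) + 1 - 2 * d + n - 1 : ℤ) : ℝ) * (A n ((n : ℤ) + 1 - 2 * ((d + 1 : ℕ) : ℤ)) : ℝ)
      = (((n : ℤ) + 1 - 2 * d + n - 1 : ℤ) : ℝ) * (A n ((n : ℤ) + 1 - 2 * d) : ℝ) +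
        2 * ((((n : ℤ) + 1 - 2 * d - 1 : ℤ)) : ℝ) * (B n ((n : ℤ) + 1 - 2 * d) : ℝ) := by
    exact_mod_cast h
  unfold al be
  have e2 : ((-1 : ℝ)) ^ (d + 1 + 1) = (-1) ^ d := by rw [pow_add, pow_add]; ring
  have e3 : ((-1 : ℝ)) ^ (d + 1) = -(-1) ^ d := by rw [pow_add]; ring
  rw [e2, e3]
  push_cast at h' ⊢
  linear_combination ((-1 : ℝ) ^ d / 2) * h'

lemma rel2 (n d : ℕ) : ((d : ℝ) + 1) * be n (d + 1) =
    -(d : ℝ) * be n d + ((n : ℝ) - 2 * d - 1) * al n (d + 1) := by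
  have h := E2 n ((n : ℤ) + 1 - 2 * d)
  have e : (n : ℤ) + 1 - 2 * d - 2 = (n : ℤ) + 1 - 2 * ((d + 1 : ℕ) : ℤ) := by push_cast; ring
  rw [e] at h
  have h' : (((n : ℤ) + 3 - ((n : ℤ) + 1 - 2 * d) : ℤ) : ℝ) *
      (B n ((n : ℤ) + 1 - 2 * ((d + 1 : ℕ) : ℤ)) : ℝ)
      = (((n : ℤ) + 1 - ((n : ℤ) + 1 - 2 * d) : ℤ) : ℝ) * (B n ((n : ℤ) + 1 - 2 * d) : ℝ) -
        (((2 * ((n : ℤ) + 1 - 2 * d) - 4 : ℤ)) : ℝ) *
          (A n ((n : ℤ) + 1 - 2 * ((d + 1 : ℕ) : ℤ)) : ℝ) := by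
    exact_mod_cast h
  unfold al be
  have e2 : ((-1 : ℝ)) ^ (d + 1 + 1) = (-1) ^ d := by rw [pow_add, pow_add]; ring
  have e3 : ((-1 : ℝ)) ^ (d + 1) = -(-1) ^ d := by rw [pow_add]; ring
  rw [e2, e3]
  push_cast at h' ⊢
  linear_combination (-(-1 : ℝ) ^ d / 2) * h'

lemma al_zero (n : ℕ) : al n 0 = 0 := by
  unfold al
  simp [(right_end n).1]

lemma be_zero (n : ℕ) : be n 0 = 1 := by
  unfold be
  simp [(right_end n).2]

lemma al_one (n : ℕ) (hn : 0 < n) : al n 1 = 1 := by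
  have h : ((n : ℝ) - (0 : ℕ)) * al n 1 =
    -((n : ℝ) - (0 : ℕ)) * al n 0 + ((n : ℝ) - 2 * (0 : ℕ)) * be n 0 := rel1 n 0
  rw [al_zero, be_zero] at h
  have hn' : (n : ℝ) ≠ 0 := by positivity
  push_cast at h
  have h2 : (n : ℝ) * al n 1 = n * 1 := by linarith
  exact mul_left_cancel₀ hn' h2

lemma be_one (n : ℕ) (hn : 0 < n) : be n 1 = n - 1 := by
  have h : (((0 : ℕ) : ℝ) + 1) * be n 1 =
    -((0 : ℕ) : ℝ) * be n 0 + ((n : ℝ) - 2 * (0 : ℕ) - 1) * al n 1 := rel2 n 0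
  rw [be_zero, al_one n hn] at h
  push_cast at h
  linarith

/-- The data of the comparison argument. -/
structure Data (n k : ℕ) (C r : ℝ) : Prop where
  hC : 0 ≤ C
  hk : 6000 * (1 + C) ≤ k
  hn : (n : ℝ) = (k : ℝ) ^ 3
  hr : r ^ 2 = 1 / 2
  hr1 : 7 / 10 ≤ r
  hr2 : r ≤ 71 / 100

/-- the beginning of the second phase -/
noncomputable def d1 (n k : ℕ) (r : ℝ) : ℕ := ⌊((n : ℝ) * (1 - r) - 2 * k) / 2⌋₊ + 1

/-- the reciprocals of the slopes -/
noncomputable def wd (n k : ℕ) (r : ℝ) (d : ℕ) : ℝ := 2 * (k : ℝ) + 2 * ((d - d1 n k r : ℕ) : ℝ)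

variable {n k : ℕ} {C r : ℝ}

lemma Data.k6 (H : Data n k C r) : (6000 : ℝ) ≤ k := by nlinarith [H.hC, H.hk]

lemma Data.kn (H : Data n k C r) : 6000 * 6000 * (k : ℝ) ≤ (n : ℝ) := by
  rw [H.hn]
  have : (k : ℝ) ^ 3 = k * k * k := by ring
  rw [this]
  have h6 : (6000 : ℝ) * 6000 ≤ k * k := by nlinarith [H.k6]
  exact mul_le_mul_of_nonneg_right h6 (by positivity)

lemma lt_d1 (H : Data n k C r) {d : ℕ} (hd : d < d1 n k r) :
    2 * (d : ℝ) ≤ (n : ℝ) * (1 - r) - 2 * k := by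
  have h1 : d ≤ ⌊((n : ℝ) * (1 - r) - 2 * k) / 2⌋₊ := by unfold d1 at hd; omega
  have hk1 : (6000 : ℝ) ≤ k := H.k6
  have hkn := H.kn
  have h0 : 0 ≤ ((n : ℝ) * (1 - r) - 2 * k) / 2 := by
    have : (n : ℝ) * (29 / 100) ≤ (n : ℝ) * (1 - r) := by
      apply mul_le_mul_of_nonneg_left _ (by positivity)
      linarith [H.hr2]
    linarith
  have h2 : (d : ℝ) ≤ ((n : ℝ) * (1 - r) - 2 * k) / 2 := by
    refine le_trans ?_ (Nat.floor_le h0)
    exact_mod_cast h1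
  linarith

lemma d1_le {d : ℕ} (hd : d1 n k r ≤ d) : (n : ℝ) * (1 - r) - 2 * k ≤ 2 * (d : ℝ) := by
  have h1 := Nat.lt_floor_add_one (((n : ℝ) * (1 - r) - 2 * k) / 2)
  have h2 : ((d1 n k r : ℕ) : ℝ) ≤ d := by exact_mod_cast hd
  unfold d1 at h2
  push_cast at h2
  linarith

lemma wd_le (H : Data n k C r) {d : ℕ} (hd : 2 * (d : ℝ) ≤ ((n : ℝ) + 1) * (1 - r) + C) :
    wd n k r d ≤ 4 * k + 1 + C := by
  unfold wd
  have hk0 : (0 : ℝ) ≤ k := Nat.cast_nonneg k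
  by_cases h : d1 n k r ≤ d
  · rw [Nat.cast_sub h]
    have h3 : ((n : ℝ) * (1 - r) - 2 * k) / 2 < ((d1 n k r : ℕ) : ℝ) := by
      unfold d1
      push_cast
      exact Nat.lt_floor_add_one _
    have := H.hr1
    nlinarith
  · rw [Nat.sub_eq_zero_of_le (by omega)]
    push_cast
    nlinarith [H.hC]

/-- the two bounds on `2 y ^ 2 - n ^ 2 - 7 y + 6` -/
lemma G1 (H : Data n k C r) {d : ℕ} (hd : d < d1 n k r) :
    (n : ℝ) * k ≤ 2 * ((n : ℝ) - 2 * d) ^ 2 - (n : ℝ) ^ 2 - 7 * ((n : ℝ) - 2 * d) + 6 := by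
  have h1 := lt_d1 H hd
  have hk1 : (6000 : ℝ) ≤ k := by nlinarith [H.hC, H.hk]
  have hn0 : (0 : ℝ) ≤ n := Nat.cast_nonneg n
  have hd0 : (0 : ℝ) ≤ d := Nat.cast_nonneg d
  have hy : (n : ℝ) * r + 2 * k ≤ (n : ℝ) - 2 * d := by linarith
  have hr0 : 0 ≤ (n : ℝ) * r + 2 * k := by have := H.hr1; positivity
  have h2 : ((n : ℝ) * r + 2 * k) ^ 2 ≤ ((n : ℝ) - 2 * d) ^ 2 := pow_le_pow_left₀ hr0 hy 2
  have h3 : ((n : ℝ) * r + 2 * k) ^ 2 = (n : ℝ) ^ 2 / 2 + 4 * r * (n * k) + 4 * (k : ℝ) ^ 2 := by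
    have := H.hr
    linear_combination (n : ℝ) ^ 2 * this
  rw [h3] at h2
  have hnk : (6000 : ℝ) * n ≤ n * k := by nlinarith
  have h4 : 7 / 10 * ((n : ℝ) * k) ≤ r * (n * k) :=
    mul_le_mul_of_nonneg_right H.hr1 (by positivity)
  nlinarith [sq_nonneg (k : ℝ)]

lemma ybound (H : Data n k C r) {d : ℕ} (hd : 2 * (d : ℝ) ≤ ((n : ℝ) + 1) * (1 - r) + C) :
    (n : ℝ) / 2 ≤ (n : ℝ) - 2 * d ∧
      -(3 * (n : ℝ) * (1 + C)) ≤ 2 * ((n : ℝ) - 2 * d) ^ 2 - (n : ℝ) ^ 2 ∧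
      (n : ℝ) / 2 ≤ (n : ℝ) - d - 1 := by
  have hk1 : 6000 * (1 + C) ≤ k := H.hk
  have hC := H.hC
  have hk2 : (6000 : ℝ) ≤ k := by nlinarith
  have hn1 : 6000 * 6000 * (6000 * (1 + C)) ≤ (n : ℝ) := by
    rw [H.hn]
    have : (k : ℝ) ^ 3 = k * k * k := by ring
    rw [this]
    have h6 : (6000 : ℝ) * 6000 ≤ k * k := by nlinarith
    exact mul_le_mul h6 hk1 (by positivity) (by positivity)
  have hy : (n : ℝ) * r - (1 + C) ≤ (n : ℝ) - 2 * d := by nlinarith [H.hr1]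
  have hr1 := H.hr1
  have hnr : 7 / 10 * (n : ℝ) ≤ n * r := by nlinarith
  have hy2 : (n : ℝ) / 2 ≤ (n : ℝ) - 2 * d := by nlinarith
  refine ⟨hy2, ?_, ?_⟩
  · have h0 : 0 ≤ (n : ℝ) * r - (1 + C) := by nlinarith
    have h2 : ((n : ℝ) * r - (1 + C)) ^ 2 ≤ ((n : ℝ) - 2 * d) ^ 2 := pow_le_pow_left₀ h0 hy 2
    have h3 : ((n : ℝ) * r - (1 + C)) ^ 2 =
        (n : ℝ) ^ 2 / 2 - 2 * r * (n * (1 + C)) + (1 + C) ^ 2 := by
      have := H.hr
      linear_combination (n : ℝ) ^ 2 * this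
    rw [h3] at h2
    have h4 : r * ((n : ℝ) * (1 + C)) ≤ 71 / 100 * (n * (1 + C)) :=
      mul_le_mul_of_nonneg_right H.hr2 (by positivity)
    nlinarith [sq_nonneg (1 + C), mul_nonneg (Nat.cast_nonneg n : (0 : ℝ) ≤ n) hC]
  · nlinarith

lemma W2 (H : Data n k C r) {d : ℕ} (h1 : d1 n k r ≤ d)
    (hd : 2 * (d : ℝ) ≤ ((n : ℝ) + 1) * (1 - r) + C) :
    (n : ℝ) / 8 ≤ d ∧ (n : ℝ) ^ 2 / 16 ≤ ((n : ℝ) - d - 1) * (d + 1) := by
  obtain ⟨-, -, hy3⟩ := ybound H hd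
  have h2 := d1_le h1
  have hC := H.hC
  have hk2 : (6000 : ℝ) ≤ k := H.k6
  have hn1 : 6000 * 6000 * (k : ℝ) ≤ (n : ℝ) := H.kn
  have hn0 : (0 : ℝ) ≤ n := Nat.cast_nonneg n
  have h3 : 29 / 100 * (n : ℝ) ≤ n * (1 - r) := by nlinarith [H.hr2]
  have h4 : (n : ℝ) / 8 ≤ d := by nlinarith
  refine ⟨h4, ?_⟩
  have h5 : (n : ℝ) / 8 ≤ d + 1 := by linarith
  calc (n : ℝ) ^ 2 / 16 = (n / 2) * (n / 8) := by ring
    _ ≤ _ := mul_le_mul hy3 h5 (by positivity) (by linarith)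

/-- The invariant. -/
lemma inv (H : Data n k C r) : ∀ d : ℕ, 1 ≤ d → 2 * (d : ℝ) ≤ ((n : ℝ) + 1) * (1 - r) + C →
    0 < al n d ∧ (2 + 1 / wd n k r d) * ((n : ℝ) - d) * al n d ≤ ((n : ℝ) - 2 * d) * be n d := by
  have hC := H.hC
  have hk2 : (6000 : ℝ) ≤ k := H.k6
  have hn1 : 6000 * 6000 * (k : ℝ) ≤ (n : ℝ) := H.kn
  have hn0 : (6000 : ℝ) ≤ n := by nlinarith
  have hnpos : 0 < n := by exact_mod_cast (by linarith : (0 : ℝ) < n)
  intro d hd
  induction d, hd using Nat.le_induction with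
  | base =>
    intro _
    rw [al_one n hnpos, be_one n hnpos]
    refine ⟨one_pos, ?_⟩
    have hw : 1 ≤ wd n k r 1 := by
      unfold wd
      have : (0 : ℝ) ≤ ((1 - d1 n k r : ℕ) : ℝ) := Nat.cast_nonneg _
      linarith
    have hw1 : 1 / wd n k r 1 ≤ 1 := by
      rw [div_le_one (by linarith)]
      exact hw
    push_cast
    nlinarith
  | succ d hd ih =>
    intro hd2
    push_cast at hd2
    have hd3 : 2 * (d : ℝ) ≤ ((n : ℝ) + 1) * (1 - r) + C := by linarith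
    obtain ⟨ha, hb⟩ := ih hd3
    obtain ⟨hy1, hy2, hy3⟩ := ybound H hd3
    have hw0 : 0 < wd n k r d := by
      unfold wd
      have : (0 : ℝ) ≤ ((d - d1 n k r : ℕ) : ℝ) := Nat.cast_nonneg _
      linarith
    have hwu := wd_le H hd3
    have h1 := rel1 n d
    have h2 := rel2 n d
    have hd0 : (0 : ℝ) ≤ d := Nat.cast_nonneg d
    have hG : 0 ≤ (1 + 1 / wd n k r d) *
        (2 * ((n : ℝ) - 2 * d) ^ 2 - (n : ℝ) ^ 2 - 7 * ((n : ℝ) - 2 * d) + 6) +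
        (1 / wd n k r d - 1 / wd n k r (d + 1) - 1 / wd n k r d * (1 / wd n k r (d + 1))) *
          (((n : ℝ) - d - 1) * (d + 1)) := by
      by_cases hcase : d < d1 n k r
      · have hwd : wd n k r d = 2 * k := by
          unfold wd
          rw [Nat.sub_eq_zero_of_le (by omega)]; simp
        have hwd' : wd n k r (d + 1) = 2 * k := by
          unfold wd
          rw [Nat.sub_eq_zero_of_le (by omega)]; simp
        rw [hwd, hwd']
        have g := G1 H hcase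
        have hW : ((n : ℝ) - d - 1) * (d + 1) ≤ n * n := by
          apply mul_le_mul _ _ (by positivity) (by positivity)
          · linarith
          · linarith
        have he0 : (0 : ℝ) ≤ 1 / (2 * k) := by positivity
        have hg0 : 0 ≤ 2 * ((n : ℝ) - 2 * d) ^ 2 - (n : ℝ) ^ 2 - 7 * ((n : ℝ) - 2 * d) + 6 :=
          le_trans (by positivity) g
        have h5 : (1 / (2 * (k : ℝ)) - 1 / (2 * k) - 1 / (2 * k) * (1 / (2 * k))) *
            (((n : ℝ) - d - 1) * (d + 1)) ≥ -(n * k) := by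
          have e1 : (1 / (2 * (k : ℝ)) - 1 / (2 * k) - 1 / (2 * k) * (1 / (2 * k))) =
            -(1 / (4 * (k : ℝ) ^ 2)) := by field_simp; ring
          rw [e1]
          have e2 : 1 / (4 * (k : ℝ) ^ 2) * (((n : ℝ) - d - 1) * (d + 1)) ≤
              1 / (4 * (k : ℝ) ^ 2) * (n * n) := mul_le_mul_of_nonneg_left hW (by positivity)
          have e3 : 1 / (4 * (k : ℝ) ^ 2) * ((n : ℝ) * n) = n * k / 4 := by
            have hk0 : (k : ℝ) ≠ 0 := by positivity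
            rw [H.hn]; field_simp
          have e4 : (0 : ℝ) ≤ n * k := by positivity
          rw [e3] at e2
          linarith
        have h6 : 2 * ((n : ℝ) - 2 * d) ^ 2 - (n : ℝ) ^ 2 - 7 * ((n : ℝ) - 2 * d) + 6 ≤
            (1 + 1 / (2 * (k : ℝ))) *
              (2 * ((n : ℝ) - 2 * d) ^ 2 - (n : ℝ) ^ 2 - 7 * ((n : ℝ) - 2 * d) + 6) := by
          nlinarith [mul_nonneg he0 hg0]
        linarith
      · push Not at hcase
        have hwd' : wd n k r (d + 1) = wd n k r d + 2 := by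
          unfold wd
          rw [Nat.succ_sub hcase]
          push_cast
          ring
        rw [hwd']
        obtain ⟨hd8, hW⟩ := W2 H hcase hd3
        set w := wd n k r d with hwdef
        have e1 : 1 / w - 1 / (w + 2) - 1 / w * (1 / (w + 2)) = 1 / (w * (w + 2)) := by
          field_simp; ring
        rw [e1]
        have hw5 : w ≤ 5 * k := by nlinarith [H.hk]
        set G := 2 * ((n : ℝ) - 2 * d) ^ 2 - (n : ℝ) ^ 2 - 7 * ((n : ℝ) - 2 * d) + 6 with hGdef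
        have hG2 : -(10 * (n : ℝ) * (1 + C)) ≤ G := by
          rw [hGdef]
          nlinarith [mul_nonneg (Nat.cast_nonneg n : (0 : ℝ) ≤ n) hC]
        set W := ((n : ℝ) - d - 1) * (d + 1) with hWdef
        have h7 : (w + 1) * (w + 2) ≤ 36 * (k : ℝ) ^ 2 := by nlinarith
        have h8 : 0 ≤ (w + 1) * (w + 2) * G + W := by
          have h9 : (w + 1) * (w + 2) * (10 * (n : ℝ) * (1 + C)) ≤ (n : ℝ) ^ 2 / 16 := by
            calc (w + 1) * (w + 2) * (10 * (n : ℝ) * (1 + C))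
                ≤ 36 * (k : ℝ) ^ 2 * (10 * (n : ℝ) * (1 + C)) :=
                  mul_le_mul_of_nonneg_right h7 (by positivity)
              _ = (n * (k : ℝ) ^ 2 / 16) * (5760 * (1 + C)) := by ring
              _ ≤ (n * (k : ℝ) ^ 2 / 16) * k := by
                  apply mul_le_mul_of_nonneg_left _ (by positivity)
                  nlinarith [H.hk]
              _ = (n : ℝ) ^ 2 / 16 := by
                  have : (n : ℝ) ^ 2 = n * (k : ℝ) ^ 3 := by rw [← H.hn]; ring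
                  rw [this]; ring
          have h10 := mul_le_mul_of_nonneg_left hG2 (by positivity : 0 ≤ (w + 1) * (w + 2))
          nlinarith
        have h11 : (1 + 1 / w) * G + 1 / (w * (w + 2)) * W =
            ((w + 1) * (w + 2) * G + W) / (w * (w + 2)) := by field_simp
        rw [h11]
        positivity
    obtain ⟨c1, c2⟩ := step (n : ℝ) d ((n : ℝ) - 2 * d) (al n d) (be n d) (al n (d + 1))
      (be n (d + 1)) (1 / wd n k r d) (1 / wd n k r (d + 1)) rfl (by linarith) hd0 (by positivity)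
      ha hb h1 h2 hG
    refine ⟨lt_of_lt_of_le (by positivity) c1, ?_⟩
    push_cast
    have e5 : (n : ℝ) - (d + 1) = n - d - 1 := by ring
    have e6 : (n : ℝ) - 2 * (d + 1) = n - 2 * d - 2 := by ring
    rw [e5, e6]
    exact c2

/-- In the window the probability increases with `d`. -/
lemma window (H : Data n k C r) (d : ℕ) (hd1 : ((n : ℝ) + 1) * (1 - r) - C ≤ 2 * (d : ℝ))
    (hd : 2 * (d : ℝ) ≤ ((n : ℝ) + 1) * (1 - r) + C) :
    al n d ^ 2 + be n d ^ 2 < al n (d + 1) ^ 2 + be n (d + 1) ^ 2 := by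
  have hC := H.hC
  have hk2 : (6000 : ℝ) ≤ k := H.k6
  have hn1 : 6000 * 6000 * (k : ℝ) ≤ (n : ℝ) := H.kn
  have hn0 : (6000 : ℝ) ≤ n := by nlinarith
  have hCn : 6000 * 6000 * (6000 * (1 + C)) ≤ (n : ℝ) := by nlinarith [H.hk]
  have hd8 : (n : ℝ) / 8 ≤ d := by
    have h3 : 29 / 100 * ((n : ℝ) + 1) ≤ (n + 1) * (1 - r) := by nlinarith [H.hr2]
    linarith
  have hd1' : 1 ≤ d := by
    have : (1 : ℝ) ≤ d := by linarith
    exact_mod_cast this
  obtain ⟨ha, hb⟩ := inv H d hd1' hd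
  obtain ⟨hy1, hy2, hy3⟩ := ybound H hd
  have hwu := wd_le H hd
  have hw0 : 0 < wd n k r d := by
    unfold wd
    have : (0 : ℝ) ≤ ((d - d1 n k r : ℕ) : ℝ) := Nat.cast_nonneg _
    linarith
  set w := wd n k r d with hw
  have hw5 : w ≤ 5 * k := by nlinarith [H.hk]
  have hG : (2 + 1 / w) * (2 * (d : ℝ) + 1) * ((n : ℝ) - d) ≤
      (1 + 1 / w) * ((n : ℝ) - 2 * d - 1) * ((n : ℝ) - 2 * d) := by
    -- multiply by w
    have e1 : (n : ℝ) ^ 2 / 8 ≤ (2 * (d : ℝ) + 1) * ((n : ℝ) - d) := by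
      have : (n : ℝ) / 4 ≤ 2 * (d : ℝ) + 1 := by linarith
      calc (n : ℝ) ^ 2 / 8 = (n / 4) * (n / 2) := by ring
        _ ≤ _ := mul_le_mul this (by linarith) (by positivity) (by positivity)
    -- first bracket
    have e2 : -(6 * (n : ℝ) * (1 + C)) ≤
        ((n : ℝ) - 2 * d - 1) * ((n : ℝ) - 2 * d) - 2 * ((2 * (d : ℝ) + 1) * ((n : ℝ) - d)) := by
      nlinarith [mul_nonneg (Nat.cast_nonneg n : (0 : ℝ) ≤ n) hC]
    have e3 : (w + 1) * (6 * (n : ℝ) * (1 + C)) ≤ (n : ℝ) ^ 2 / 8 := by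
      have e4 : (n : ℝ) ^ 2 / 8 = n * (k : ℝ) ^ 2 / 8 * k := by
        have : (n : ℝ) ^ 2 = n * (k : ℝ) ^ 3 := by rw [← H.hn]; ring
        rw [this]; ring
      rw [e4]
      have e5 : w + 1 ≤ 6 * k := by linarith
      calc (w + 1) * (6 * (n : ℝ) * (1 + C)) ≤ 6 * k * (6 * (n : ℝ) * (1 + C)) :=
            mul_le_mul_of_nonneg_right e5 (by positivity)
        _ = (n * k / 8) * (288 * (1 + C)) := by ring
        _ ≤ (n * k / 8) * (k * k) := by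
            apply mul_le_mul_of_nonneg_left _ (by positivity)
            nlinarith [H.hk]
        _ = n * (k : ℝ) ^ 2 / 8 * k := by ring
    have e6 : 0 ≤ w * ((1 + 1 / w) * ((n : ℝ) - 2 * d - 1) * ((n : ℝ) - 2 * d) -
        (2 + 1 / w) * (2 * (d : ℝ) + 1) * ((n : ℝ) - d)) := by
      have e7 : w * ((1 + 1 / w) * ((n : ℝ) - 2 * d - 1) * ((n : ℝ) - 2 * d) -
        (2 + 1 / w) * (2 * (d : ℝ) + 1) * ((n : ℝ) - d)) =
        (w + 1) * (((n : ℝ) - 2 * d - 1) * ((n : ℝ) - 2 * d) -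
          2 * ((2 * (d : ℝ) + 1) * ((n : ℝ) - d))) + (2 * (d : ℝ) + 1) * ((n : ℝ) - d) := by
        field_simp; ring
      rw [e7]
      have e8 := mul_le_mul_of_nonneg_left e2 (by linarith : 0 ≤ w + 1)
      nlinarith
    have e9 := (mul_nonneg_iff_of_pos_left hw0).mp e6
    linarith
  obtain ⟨c1, c2, c3⟩ := grow (n : ℝ) d ((n : ℝ) - 2 * d) (al n d) (be n d) (al n (d + 1))
    (be n (d + 1)) (1 / w) rfl (by linarith) (by positivity) (by positivity) ha hb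
    (rel1 n d) (rel2 n d) hG
  have := pow_lt_pow_left₀ c1 ha.le (by norm_num : (2:ℕ) ≠ 0)
  have := pow_le_pow_left₀ c2.le c3 2
  linarith

end Pool.Agent.Y655.FC
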