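import Pool.Agent.Y655.FC.Paths
import Pool.Agent.Y655.FC.Inv

/-!
# Feynman checkers: no point within a fixed distance of `t / √2` is most probable
-/

set_option autoImplicit false

namespace Pool.Agent.Y655.FC

/-- the unnormalised probability -/
noncomputable def f (n : ℕ) (x : ℤ) : ℝ := (A n x : ℝ) ^ 2 + (B n x : ℝ) ^ 2

lemma f_nonneg (n : ℕ) (x : ℤ) : 0 ≤ f n x := by unfold f; positivity

lemma f_right (n : ℕ) : f n ((n : ℤ) + 1) = 1 := by
  unfold f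
  rw [(right_end n).1, (right_end n).2]
  norm_num

lemma f_out (n : ℕ) (x : ℤ) (h : (n : ℤ) + 1 < x ∨ x < -((n : ℤ) + 1)) : f n x = 0 := by
  unfold f
  rw [(cone n x h).1, (cone n x h).2]
  norm_num

lemma f_odd (n : ℕ) (x : ℤ) (h : Odd (x + n + 1)) : f n x = 0 := by
  unfold f
  rw [(parity n x h).1, (parity n x h).2]
  norm_num

lemma f_eq (n d : ℕ) : f n ((n : ℤ) + 1 - 2 * d) = al n d ^ 2 + be n d ^ 2 := by
  unfold f al be
  have h : ∀ m : ℕ, ((-1 : ℝ) ^ m) ^ 2 = 1 := by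
    intro m
    rw [← pow_mul, mul_comm, pow_mul]; norm_num
  rw [mul_pow, mul_pow, h, h]
  ring

/-- a most probable point exists -/
lemma exists_max (n : ℕ) : ∃ x : ℤ, ∀ y : ℤ, f n y ≤ f n x := by
  obtain ⟨x, hx, hmax⟩ := Finset.exists_max_image (Finset.Icc (-((n : ℤ) + 1)) ((n : ℤ) + 1)) (f n)
    ⟨(n : ℤ) + 1, by rw [Finset.mem_Icc]; omega⟩
  refine ⟨x, fun y => ?_⟩
  by_cases hy : y ∈ Finset.Icc (-((n : ℤ) + 1)) ((n : ℤ) + 1)
  · exact hmax y hy
  · rw [Finset.mem_Icc] at hy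
    rw [f_out n y (by omega)]
    exact f_nonneg n x

/-- For every `C` there is a time at which no point within `C` of `t / √2` is most probable. -/
lemma no_max_near (C : ℝ) : ∃ n : ℕ, ∀ x : ℤ, (∀ y : ℤ, f n y ≤ f n x) →
    C < |(x : ℝ) - ((n : ℝ) + 1) / Real.sqrt 2| := by
  set C' := max C 0 with hC'
  set k : ℕ := ⌈6000 * (1 + C')⌉₊ with hk
  refine ⟨k ^ 3, ?_⟩
  set n := k ^ 3 with hn
  intro x hx
  by_contra hcon
  push Not at hcon
  have hcon' : |(x : ℝ) - ((n : ℝ) + 1) / Real.sqrt 2| ≤ C' := hcon.trans (le_max_left _ _)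
  have hs : Real.sqrt 2 ^ 2 = 2 := Real.sq_sqrt (by norm_num)
  have hs0 : 0 < Real.sqrt 2 := Real.sqrt_pos.mpr (by norm_num)
  have H : Data n k C' (Real.sqrt 2 / 2) := by
    refine ⟨le_max_right _ _, Nat.le_ceil _, by rw [hn]; push_cast; ring, ?_, ?_, ?_⟩
    · rw [div_pow, hs]; norm_num
    · have : (1.4 : ℝ) ≤ Real.sqrt 2 := Real.le_sqrt_of_sq_le (by norm_num)
      linarith
    · have : Real.sqrt 2 ≤ 1.42 := Real.sqrt_le_iff.mpr ⟨by norm_num, by norm_num⟩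
      linarith
  have hdiv : ((n : ℝ) + 1) / Real.sqrt 2 = ((n : ℝ) + 1) * (Real.sqrt 2 / 2) := by
    rw [div_eq_iff hs0.ne']
    have : ((n : ℝ) + 1) * (Real.sqrt 2 / 2) * Real.sqrt 2 = ((n : ℝ) + 1) * (Real.sqrt 2 ^ 2) / 2 := by
      ring
    rw [this, hs]; ring
  rw [hdiv] at hcon'
  have h1 : 1 ≤ f n x := by rw [← f_right n]; exact hx _
  have hev : ¬ Odd (x + n + 1) := by
    intro ho
    rw [f_odd n x ho] at h1
    norm_num at h1
  have hx1 : x ≤ (n : ℤ) + 1 := by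
    by_contra hc
    push Not at hc
    rw [f_out n x (Or.inl hc)] at h1
    norm_num at h1
  obtain ⟨d, hd⟩ : ∃ d : ℕ, x = (n : ℤ) + 1 - 2 * d := by
    rw [Int.not_odd_iff_even] at hev
    obtain ⟨c, hc⟩ := hev
    refine ⟨((n : ℤ) + 1 - c).toNat, ?_⟩
    rw [Int.toNat_of_nonneg (by omega)]
    omega
  rw [abs_le] at hcon'
  have hxr : (x : ℝ) = (n : ℝ) + 1 - 2 * d := by rw [hd]; push_cast; ring
  rw [hxr] at hcon'
  have hw := window H d (by linarith [hcon'.2]) (by linarith [hcon'.1])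
  rw [← f_eq, ← f_eq, ← hd] at hw
  exact absurd (hx _) (not_le.mpr hw)

end Pool.Agent.Y655.FC
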