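import Mathlib

/-!
# Feynman checkers: the two components of the amplitude

`A n x` and `B n x` are the unnormalised components at time `n + 1`: the sum of `(-i)^turns` over the
checker paths to `(x, n + 1)` is `B n x - i A n x`.
-/

set_option autoImplicit false

namespace Pool.Agent.Y655.FC

/-- The pair `(A n x, B n x)`. -/
def AB : ℕ → ℤ → ℤ × ℤ
  | 0, x => (0, if x = 1 then 1 else 0)
  | n + 1, x => ((AB n (x + 1)).1 + (AB n (x + 1)).2, (AB n (x - 1)).2 - (AB n (x - 1)).1)

def A (n : ℕ) (x : ℤ) : ℤ := (AB n x).1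

def B (n : ℕ) (x : ℤ) : ℤ := (AB n x).2

lemma A_zero (x : ℤ) : A 0 x = 0 := rfl
lemma B_zero (x : ℤ) : B 0 x = if x = 1 then 1 else 0 := rfl
lemma A_succ (n : ℕ) (x : ℤ) : A (n + 1) x = A n (x + 1) + B n (x + 1) := rfl
lemma B_succ (n : ℕ) (x : ℤ) : B (n + 1) x = B n (x - 1) - A n (x - 1) := rfl

/-- the values vanish for the wrong parity -/
lemma parity (n : ℕ) : ∀ x : ℤ, Odd (x + n + 1) → A n x = 0 ∧ B n x = 0 := by
  induction n with
  | zero =>
    intro x hx
    refine ⟨A_zero x, ?_⟩
    rw [B_zero, if_neg]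
    rintro rfl
    rcases hx with ⟨k, hk⟩
    push_cast at hk
    omega
  | succ n ih =>
    intro x hx
    rcases hx with ⟨k, hk⟩
    push_cast at hk
    obtain ⟨h1, h2⟩ := ih (x + 1) ⟨k, by linarith⟩
    obtain ⟨h3, h4⟩ := ih (x - 1) ⟨k - 1, by linarith⟩
    rw [A_succ, B_succ, h1, h2, h3, h4]
    simp

/-- the values vanish outside of the light cone -/
lemma cone (n : ℕ) : ∀ x : ℤ, ((n : ℤ) + 1 < x ∨ x < -((n : ℤ) + 1)) → A n x = 0 ∧ B n x = 0 := by
  induction n with
  | zero =>
    intro x hx
    refine ⟨A_zero x, ?_⟩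
    rw [B_zero, if_neg]
    rintro rfl
    norm_num at hx
  | succ n ih =>
    intro x hx
    push_cast at hx
    rw [A_succ, B_succ]
    rcases hx with hx | hx
    · obtain ⟨h1, h2⟩ := ih (x + 1) (by left; linarith)
      obtain ⟨h3, h4⟩ := ih (x - 1) (by left; linarith)
      rw [h1, h2, h3, h4]; simp
    · obtain ⟨h1, h2⟩ := ih (x + 1) (by right; linarith)
      obtain ⟨h3, h4⟩ := ih (x - 1) (by right; linarith)
      rw [h1, h2, h3, h4]; simp

/-- the value at the right end -/
lemma right_end (n : ℕ) : A n ((n : ℤ) + 1) = 0 ∧ B n ((n : ℤ) + 1) = 1 := by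
  induction n with
  | zero => exact ⟨rfl, by rw [B_zero]; simp⟩
  | succ n ih =>
    rw [A_succ, B_succ]
    push_cast
    obtain ⟨h1, h2⟩ := cone n ((n : ℤ) + 1 + 1 + 1) (by left; linarith)
    rw [h1, h2]
    have h3 : ((n : ℤ) + 1 + 1 - 1) = (n : ℤ) + 1 := by ring
    rw [h3, ih.1, ih.2]
    simp

/-- the two relations between consecutive times -/
lemma F12 (n : ℕ) : ∀ x : ℤ,
    (x + n + 1) * A (n + 1) (x + 1) = (3 * x + n + 1) * A n x + (n + 1 - x) * B n x ∧
    (n + 3 - x) * B (n + 1) (x - 1) = (n + 3 - 3 * x) * B n x - (x + n - 1) * A n x := by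
  induction n with
  | zero =>
    intro x
    constructor
    · rw [A_succ, A_zero, A_zero, B_zero, B_zero]
      push_cast
      by_cases h1 : x = 1
      · subst h1; norm_num
      · rw [if_neg h1]
        by_cases h2 : x + 1 + 1 = 1
        · have : x = -1 := by omega
          subst this; norm_num
        · rw [if_neg h2]; ring
    · rw [B_succ, A_zero, A_zero, B_zero, B_zero]
      push_cast
      by_cases h1 : x = 1
      · subst h1; norm_num
      · rw [if_neg h1]
        by_cases h2 : x - 1 - 1 = 1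
        · have : x = 3 := by omega
          subst this; norm_num
        · rw [if_neg h2]; ring
  | succ n ih =>
    intro x
    constructor
    · have e1 := (ih (x + 1)).1
      have e2 := (ih (x + 1)).2
      rw [A_succ (n + 1) (x + 1)]
      have a1 : A (n + 1) x = A n (x + 1) + B n (x + 1) := A_succ n x
      have b1 : B (n + 1) (x + 1 + 1) = B n (x + 1) - A n (x + 1) := by
        rw [B_succ]; congr 2 <;> ring
      have c1 : x + 1 - 1 = x := by ring
      rw [c1] at e2
      rw [b1, a1]
      push_cast at e1 e2 ⊢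
      linear_combination e1 - e2
    · have e1 := (ih (x - 1)).1
      have e2 := (ih (x - 1)).2
      rw [B_succ (n + 1) (x - 1)]
      have b1 : B (n + 1) x = B n (x - 1) - A n (x - 1) := B_succ n x
      have a1 : A (n + 1) (x - 1 - 1) = A n (x - 1) + B n (x - 1) := by
        rw [A_succ]; congr 2 <;> ring
      have c1 : x - 1 + 1 = x := by ring
      rw [c1] at e1
      rw [a1, b1]
      push_cast at e1 e2 ⊢
      linear_combination e1 + e2

/-- the first relation at fixed time -/
lemma E1 (n : ℕ) (x : ℤ) :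
    (x + n - 1) * A n (x - 2) = (x + n - 1) * A n x + 2 * (x - 1) * B n x := by
  cases n with
  | zero =>
    rw [A_zero, A_zero, B_zero]
    by_cases h1 : x = 1
    · subst h1; norm_num
    · rw [if_neg h1]; ring
  | succ n =>
    have e1 := (F12 n (x - 1)).1
    have c1 : x - 1 + 1 = x := by ring
    rw [c1] at e1
    have a1 : A (n + 1) (x - 2) = A n (x - 1) + B n (x - 1) := by
      rw [A_succ]; congr 2 <;> ring
    have b1 : B (n + 1) x = B n (x - 1) - A n (x - 1) := B_succ n x
    rw [a1, b1]
    push_cast at e1 ⊢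
    linear_combination -e1

/-- the second relation at fixed time -/
lemma E2 (n : ℕ) (x : ℤ) :
    (n + 3 - x) * B n (x - 2) = (n + 1 - x) * B n x - (2 * x - 4) * A n (x - 2) := by
  cases n with
  | zero =>
    rw [A_zero, B_zero, B_zero]
    push_cast
    by_cases h1 : x = 1
    · subst h1; norm_num
    · rw [if_neg h1]
      by_cases h2 : x - 2 = 1
      · have : x = 3 := by omega
        subst this; norm_num
      · rw [if_neg h2]; ring
  | succ n =>
    have e2 := (F12 n (x - 1)).2
    have c1 : x - 1 - 1 = x - 2 := by ring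
    rw [c1] at e2
    have a1 : A (n + 1) (x - 2) = A n (x - 1) + B n (x - 1) := by
      rw [A_succ]; congr 2 <;> ring
    have b1 : B (n + 1) x = B n (x - 1) - A n (x - 1) := B_succ n x
    rw [a1, b1]
    push_cast at e2 ⊢
    linear_combination e2

end Pool.Agent.Y655.FC
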