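import Pool.Agent.Y655.FC.Basic

/-!
# Feynman checkers: path sums
-/

set_option autoImplicit false

open Finset

namespace Pool.Agent.Y655.FC

/-- displacement -/
def disp {n : ℕ} (s : Fin n → Bool) : ℤ := ∑ i, (if s i then (1 : ℤ) else -1)

/-- number of turns -/
def turns {n : ℕ} (s : Fin (n + 1) → Bool) : ℕ :=
  (univ.filter (fun i : Fin n => s i.castSucc ≠ s i.succ)).card

lemma turns_eq {n : ℕ} (s : Fin (n + 1) → Bool) :
    turns s = ∑ i : Fin n, if s i.castSucc ≠ s i.succ then 1 else 0 := by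
  rw [turns, card_filter]

/-- the path sum with prescribed last step -/
noncomputable def S (n : ℕ) (b : Bool) (y : ℤ) : ℂ :=
  ∑ s : Fin (n + 1) → Bool, if s 0 = true ∧ s (Fin.last n) = b ∧ disp s = y then
    (-Complex.I) ^ turns s else 0

lemma disp_snoc {n : ℕ} (s : Fin n → Bool) (c : Bool) :
    disp (Fin.snoc s c : Fin (n + 1) → Bool) = disp s + if c then 1 else -1 := by
  unfold disp
  rw [Fin.sum_univ_castSucc]
  simp

lemma turns_snoc {n : ℕ} (s : Fin (n + 1) → Bool) (c : Bool) :
    turns (Fin.snoc s c : Fin (n + 2) → Bool) = turns s + if s (Fin.last n) ≠ c then 1 else 0 := by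
  rw [turns_eq, turns_eq, Fin.sum_univ_castSucc]
  congr 1
  · apply sum_congr rfl
    intro i _
    have h1 : (Fin.snoc s c : Fin (n + 2) → Bool) i.castSucc.castSucc = s i.castSucc := by
      rw [Fin.snoc_castSucc]
    have h2 : (Fin.snoc s c : Fin (n + 2) → Bool) i.castSucc.succ = s i.succ := by
      rw [← Fin.castSucc_succ, Fin.snoc_castSucc]
    rw [h1, h2]
  · have h1 : (Fin.snoc s c : Fin (n + 2) → Bool) (Fin.last n).castSucc = s (Fin.last n) := by
      rw [Fin.snoc_castSucc]
    have h2 : (Fin.snoc s c : Fin (n + 2) → Bool) (Fin.last n).succ = c := by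
      rw [Fin.succ_last, Fin.snoc_last]
    rw [h1, h2]

lemma S_succ (n : ℕ) (b : Bool) (y : ℤ) :
    S (n + 1) b y = S n b (y - if b then 1 else -1) +
      (-Complex.I) * S n (!b) (y - if b then 1 else -1) := by
  unfold S
  rw [← (Fin.snocEquiv (fun _ : Fin (n + 2) => Bool)).sum_comp, Fintype.sum_prod_type]
  have h0 : ∀ (c : Bool) (s : Fin (n + 1) → Bool),
      (Fin.snocEquiv (fun _ : Fin (n + 2) => Bool)) (c, s) = (Fin.snoc s c : Fin (n + 2) → Bool) :=
    fun c s => rfl
  simp only [h0]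
  have h1 : ∀ (c : Bool) (s : Fin (n + 1) → Bool),
      (Fin.snoc s c : Fin (n + 2) → Bool) 0 = s 0 := by
    intro c s
    have : (0 : Fin (n + 2)) = (0 : Fin (n + 1)).castSucc := rfl
    rw [this, Fin.snoc_castSucc]
  have h2 : ∀ (c : Bool) (s : Fin (n + 1) → Bool),
      (Fin.snoc s c : Fin (n + 2) → Bool) (Fin.last (n + 1)) = c := by
    intro c s
    rw [Fin.snoc_last]
  simp only [h1, h2, disp_snoc, turns_snoc]
  rw [mul_sum, ← sum_add_distrib]
  rw [Fintype.sum_bool, ← sum_add_distrib]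
  apply sum_congr rfl
  intro s _
  have e1 : (disp s + -1 = y) ↔ (disp s = y + 1) := by constructor <;> intro h <;> linarith
  have e2 : (disp s + 1 = y) ↔ (disp s = y - 1) := by constructor <;> intro h <;> linarith
  cases b <;> cases h : s (Fin.last n) <;> cases h3 : s 0 <;>
    simp [e1, e2, pow_succ, mul_comm]

lemma S_zero (b : Bool) (y : ℤ) : S 0 b y = if b = true ∧ y = 1 then 1 else 0 := by
  unfold S
  rw [← (Equiv.funUnique (Fin 1) Bool).symm.sum_comp, Fintype.sum_bool]
  cases b
  · simp [disp]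
  · simp [disp, turns, eq_comm]

lemma S_eq (n : ℕ) : ∀ y : ℤ, S n true y = (B n y : ℂ) ∧ S n false y = -Complex.I * (A n y : ℂ) := by
  induction n with
  | zero =>
    intro y
    rw [S_zero, S_zero, A_zero, B_zero]
    simp
  | succ n ih =>
    intro y
    rw [S_succ, S_succ, A_succ, B_succ]
    simp only [Bool.not_true, Bool.not_false, if_true, Bool.false_eq_true, if_false, sub_neg_eq_add]
    rw [(ih (y - 1)).1, (ih (y - 1)).2, (ih (y + 1)).1, (ih (y + 1)).2]
    push_cast
    constructor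
    · linear_combination ((A n (y - 1) : ℤ) : ℂ) * Complex.I_mul_I
    · ring

/-- The path sum in the frozen statement. -/
lemma pathSum (n : ℕ) (y : ℤ) :
    (∑ s ∈ Finset.univ.filter
        (fun s : Fin (n+1) → Bool =>
          s 0 = true ∧ ∑ i, (if s i then (1:ℤ) else -1) = y),
      (-Complex.I) ^ ((Finset.univ.filter
        (fun i : Fin n => s i.castSucc ≠ s i.succ)).card)) = (B n y : ℂ) - Complex.I * (A n y : ℂ) := by
  have h : (B n y : ℂ) - Complex.I * (A n y : ℂ) = S n true y + S n false y := by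
    rw [(S_eq n y).1, (S_eq n y).2]; ring
  rw [h, sum_filter]
  unfold S
  rw [← sum_add_distrib]
  apply sum_congr rfl
  intro s _
  change (if s 0 = true ∧ disp s = y then (-Complex.I) ^ turns s else 0) = _
  cases h : s (Fin.last n) <;> simp

lemma norm_sq (n : ℕ) (y : ℤ) :
    ‖(B n y : ℂ) - Complex.I * (A n y : ℂ)‖ ^ 2 = (A n y : ℝ) ^ 2 + (B n y : ℝ) ^ 2 := by
  rw [← Complex.normSq_eq_norm_sq, Complex.normSq_apply]
  simp
  ring

end Pool.Agent.Y655.FC
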