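import Pool.Agent.Y655.FC.Basic

/-!
# Feynman checkers: growth of the amplitudes up to and slightly beyond the point `t / √2`
-/

set_option autoImplicit false

namespace Pool.Agent.Y655.FC

lemma step (n d y a b a' b' e e' : ℝ) (hy : y = n - 2 * d) (hy2 : 2 < y) (hd : 0 ≤ d) (he : 0 < e)
    (ha : 0 < a) (hb : (2 + e) * (n - d) * a ≤ y * b)
    (h1 : (n - d) * a' = -(n - d) * a + y * b)
    (h2 : (d + 1) * b' = -d * b + (y - 1) * a')
    (hG : 0 ≤ (1 + e) * (2 * y ^ 2 - n ^ 2 - 7 * y + 6) +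
      (e - e' - e * e') * ((n - d - 1) * (d + 1))) :
    (1 + e) * a ≤ a' ∧ (2 + e') * (n - d - 1) * a' ≤ (y - 2) * b' := by
  have hnd : 0 < n - d := by rw [hy] at hy2; linarith
  have hnd1 : 0 < n - d - 1 := by rw [hy] at hy2; linarith
  have ha' : (1 + e) * a ≤ a' := by
    have h3 : (n - d) * ((1 + e) * a) ≤ (n - d) * a' := by rw [h1]; nlinarith
    exact le_of_mul_le_mul_left h3 hnd
  have ha'0 : 0 < a' := lt_of_lt_of_le (by positivity) ha'
  refine ⟨ha', ?_⟩
  -- upper bound for b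
  have hbu : (1 + e) * (y * b) ≤ (2 + e) * (n - d) * a' := by
    have h4 : (2 + e) * ((n - d) * a) ≤ y * b := by linarith
    have h5 : (n - d) * a = y * b - (n - d) * a' := by linarith
    rw [h5] at h4
    nlinarith
  have hD : 0 ≤ y * ((n - d - 1) * (d + 1)) - (y - 2) * d * (n - d) := by
    have h6 : (y - 2) * (n - d) ≤ y * (n - d - 1) := by rw [hy]; nlinarith
    have h7 : 0 ≤ y * (n - d - 1) := by positivity
    nlinarith [mul_le_mul_of_nonneg_left h6 hd]
  have hid : (y - 2) * (y * (1 + e) * (y - 1) - d * (2 + e) * (n - d)) -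
      (2 + e') * (n - d - 1) * (d + 1) * y * (1 + e) =
      y * ((1 + e) * (2 * y ^ 2 - n ^ 2 - 7 * y + 6) +
        (e - e' - e * e') * ((n - d - 1) * (d + 1))) +
      (2 + e) * (y * ((n - d - 1) * (d + 1)) - (y - 2) * d * (n - d)) := by
    rw [hy]; ring
  have hkey : (2 + e') * (n - d - 1) * (d + 1) * y * (1 + e) ≤
      (y - 2) * (y * (1 + e) * (y - 1) - d * (2 + e) * (n - d)) := by
    have h8 : 0 ≤ y * ((1 + e) * (2 * y ^ 2 - n ^ 2 - 7 * y + 6) +
        (e - e' - e * e') * ((n - d - 1) * (d + 1))) := mul_nonneg (by linarith) hG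
    have h9 : 0 ≤ (2 + e) * (y * ((n - d - 1) * (d + 1)) - (y - 2) * d * (n - d)) :=
      mul_nonneg (by linarith) hD
    linarith
  -- multiply the target by (d + 1) y (1 + e)
  have hpos : 0 < (d + 1) * (y * (1 + e)) := by positivity
  have hfin : (d + 1) * (y * (1 + e)) * ((2 + e') * (n - d - 1) * a') ≤
      (d + 1) * (y * (1 + e)) * ((y - 2) * b') := by
    have e1 : (d + 1) * (y * (1 + e)) * ((y - 2) * b') =
        (y - 2) * (y * (1 + e)) * ((d + 1) * b') := by ring
    rw [e1, h2]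
    have e2 : (y - 2) * (y * (1 + e)) * (-d * b + (y - 1) * a') =
        (y - 2) * ((y * (1 + e) * (y - 1)) * a' - d * ((1 + e) * (y * b))) := by ring
    rw [e2]
    have e3 : (y - 2) * ((y * (1 + e) * (y - 1)) * a' - d * ((2 + e) * (n - d) * a')) ≤
        (y - 2) * ((y * (1 + e) * (y - 1)) * a' - d * ((1 + e) * (y * b))) := by
      apply mul_le_mul_of_nonneg_left _ (by linarith)
      have := mul_le_mul_of_nonneg_left hbu hd
      linarith
    refine le_trans ?_ e3
    have e4 := mul_le_mul_of_nonneg_right hkey ha'0.le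
    nlinarith
  exact le_of_mul_le_mul_left hfin hpos

/-- growth of the second component -/
lemma grow (n d y a b a' b' e : ℝ) (hy : y = n - 2 * d) (hy2 : 2 < y) (hd : 0 ≤ d) (he : 0 < e)
    (ha : 0 < a) (hb : (2 + e) * (n - d) * a ≤ y * b)
    (h1 : (n - d) * a' = -(n - d) * a + y * b)
    (h2 : (d + 1) * b' = -d * b + (y - 1) * a')
    (hG : (2 + e) * (2 * d + 1) * (n - d) ≤ (1 + e) * (y - 1) * y) :
    a < a' ∧ 0 < b ∧ b ≤ b' := by
  have hnd : 0 < n - d := by rw [hy] at hy2; linarith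
  have ha' : (1 + e) * a ≤ a' := by
    have h3 : (n - d) * ((1 + e) * a) ≤ (n - d) * a' := by rw [h1]; nlinarith
    exact le_of_mul_le_mul_left h3 hnd
  have hb0 : 0 < b := by
    have h4 : 0 < y * b := lt_of_lt_of_le (by positivity) hb
    exact (mul_pos_iff_of_pos_left (by linarith)).mp h4
  refine ⟨by nlinarith, hb0, ?_⟩
  -- lower bound for a'
  have hlow : (1 + e) * (y * b) ≤ (2 + e) * (n - d) * a' := by
    have h4 : (2 + e) * ((n - d) * a) ≤ y * b := by linarith
    have h5 : (n - d) * a = y * b - (n - d) * a' := by linarith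
    rw [h5] at h4
    nlinarith
  have hpos : 0 < (2 + e) * (n - d) * (d + 1) := by positivity
  have hfin : (2 + e) * (n - d) * (d + 1) * b ≤ (2 + e) * (n - d) * (d + 1) * b' := by
    have e1 : (2 + e) * (n - d) * (d + 1) * b' = (2 + e) * (n - d) * ((d + 1) * b') := by ring
    rw [e1, h2]
    have e2 := mul_le_mul_of_nonneg_left hlow (by linarith : (0:ℝ) ≤ y - 1)
    have e3 := mul_le_mul_of_nonneg_right hG hb0.le
    nlinarith
  exact le_of_mul_le_mul_left hfin hpos

end Pool.Agent.Y655.FC
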